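import Mathlib

/-!
# The delayed `k`-server problem on complete bipartite graphs (MP_f4335c, Q1)

For all `a, b ≥ 2` with `a + b = k + 1`, no deterministic online algorithm for the delayed
`k`-server problem on the complete bipartite graph `K_{a,b}` (points at distance `1` on
different sides and `2` on the same side) is `C`-competitive with `C < k`.
-/

set_option autoImplicit false

namespace Pool.Agent.Results.MP_f4335c_lc.CompleteBipartite

/-- A state: the positions of the `k` servers, and the frozen server. -/
structure State (M : Type) (k : ℕ) where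
  pos : Fin k → M
  frozen : Fin k

section Model

variable {M : Type} [MetricSpace M] {k : ℕ}

/-- `Step s r s'`: starting in state `s`, the request `r` can be served by moving servers so
that the state becomes `s'`.  The frozen server of `s` does not move; the server that serves `r`
is the frozen server of `s'`. -/
def Step (s : State M k) (r : M) (s' : State M k) : Prop :=
  s'.pos s.frozen = s.pos s.frozen ∧ s'.pos s'.frozen = r

/-- The total distance moved. -/
noncomputable def moveCost (s s' : State M k) : ℝ := ∑ i, dist (s.pos i) (s'.pos i)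

/-- `Offline s₀ ρ s x`: the request sequence `ρ` (most recent request first) can be served
starting from `s₀`, ending in `s`, with total cost `x`. -/
inductive Offline (s₀ : State M k) : List M → State M k → ℝ → Prop
  | nil : Offline s₀ [] s₀ 0
  | cons (ρ : List M) (s : State M k) (x : ℝ) (r : M) (s' : State M k) :
      Offline s₀ ρ s x → Step s r s' → Offline s₀ (r :: ρ) s' (x + moveCost s s')

/-- The optimal offline cost of `ρ` (most recent request first) from the initial state `s₀`. -/
noncomputable def opt (s₀ : State M k) (ρ : List M) : ℝ := sInf {x | ∃ s, Offline s₀ ρ s x}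

/-- A deterministic online algorithm with initial state `s₀`: `state ρ` is its state after
serving the history `ρ` (most recent request first); it depends on the past requests only. -/
structure Algorithm (s₀ : State M k) where
  state : List M → State M k
  start : state [] = s₀
  legal : ∀ (ρ : List M) (r : M), Step (state ρ) r (state (r :: ρ))

/-- The total cost of an online algorithm on a history. -/
noncomputable def Algorithm.cost {s₀ : State M k} (A : Algorithm s₀) : List M → ℝ
  | [] => 0
  | r :: ρ => A.cost ρ + moveCost (A.state ρ) (A.state (r :: ρ))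

/-- `A` is `C`-competitive. -/
def Algorithm.IsCompetitive {s₀ : State M k} (A : Algorithm s₀) (C : ℝ) : Prop :=
  ∃ K : ℝ, ∀ ρ : List M, A.cost ρ ≤ C * opt s₀ ρ + K

/-- The competitiveness, with initial state `s₀`: the infimum (`⊤` if there is none) of the `C`
such that some deterministic online algorithm is `C`-competitive. -/
noncomputable def competitiveness (s₀ : State M k) : EReal :=
  sInf {c : EReal | ∃ C : ℝ, c = (C : EReal) ∧ ∃ A : Algorithm s₀, A.IsCompetitive C}

end Model

/-! ### General facts -/

section General

variable {M : Type} [MetricSpace M] {k : ℕ} {s₀ : State M k}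

theorem moveCost_nonneg (s s' : State M k) : 0 ≤ moveCost s s' :=
  Finset.sum_nonneg fun _ _ => dist_nonneg

theorem Offline.nonneg {ρ : List M} {s : State M k} {x : ℝ} (h : Offline s₀ ρ s x) : 0 ≤ x := by
  induction h with
  | nil => exact le_refl 0
  | cons ρ s x r s' _ _ ih => exact add_nonneg ih (moveCost_nonneg _ _)

theorem opt_le {ρ : List M} {s : State M k} {x : ℝ} (h : Offline s₀ ρ s x) : opt s₀ ρ ≤ x :=
  csInf_le ⟨0, by rintro _ ⟨s, hs⟩; exact hs.nonneg⟩ ⟨s, h⟩

theorem opt_nonneg {ρ : List M} : 0 ≤ opt s₀ ρ :=
  Real.sInf_nonneg (by rintro _ ⟨s, hs⟩; exact hs.nonneg)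

/-- The bookkeeping for the lazy simulation of an online algorithm: `g` is the simulated hole,
`e` the simulated (injective) configuration, `L` the distance travelled by the hole. -/
structure Inv (A : Algorithm s₀) (Q : ℝ) (ρ : List M) (g : M) (e : Fin k → M) (L : ℝ) : Prop where
  inj : Function.Injective e
  avoid : ∀ i, e i ≠ g
  bound : L + ∑ i, dist ((A.state ρ).pos i) (e i) ≤ A.cost ρ + Q

theorem Inv.other {A : Algorithm s₀} {Q : ℝ} {ρ : List M} {g : M} {e : Fin k → M} {L : ℝ}
    (h : Inv A Q ρ g e L) (r : M) : Inv A Q (r :: ρ) g e L := by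
  refine ⟨h.inj, h.avoid, ?_⟩
  have h1 : ∑ i, dist ((A.state (r :: ρ)).pos i) (e i) ≤
      moveCost (A.state ρ) (A.state (r :: ρ)) + ∑ i, dist ((A.state ρ).pos i) (e i) := by
    rw [moveCost, ← Finset.sum_add_distrib]
    apply Finset.sum_le_sum
    intro i _
    rw [dist_comm ((A.state ρ).pos i) ((A.state (r :: ρ)).pos i)]
    exact dist_triangle _ _ _
  have h2 := h.bound
  change _ ≤ A.cost ρ + moveCost (A.state ρ) (A.state (r :: ρ)) + Q
  linarith

theorem Inv.hole {A : Algorithm s₀} {Q : ℝ} {ρ : List M} {g : M} {e : Fin k → M} {L : ℝ}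
    (h : Inv A Q ρ g e L) : ∃ (g' : M) (e' : Fin k → M), g' ≠ g ∧
      Inv A Q (g :: ρ) g' e' (L + dist g g') := by
  classical
  obtain ⟨hinj, havoid, hb⟩ := h.other g
  set S' := (A.state (g :: ρ)).pos with hS'
  set i := (A.state (g :: ρ)).frozen with hi
  have hSi : S' i = g := (A.legal ρ g).2
  refine ⟨e i, Function.update e i g, havoid i, ?_, ?_, ?_⟩
  · intro p q hpq
    by_cases hp : p = i
    · by_cases hq : q = i
      · rw [hp, hq]
      · subst hp
        rw [Function.update_self, Function.update_of_ne hq] at hpq
        exact absurd hpq.symm (havoid q)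
    · by_cases hq : q = i
      · subst hq
        rw [Function.update_self, Function.update_of_ne hp] at hpq
        exact absurd hpq (havoid p)
      · rw [Function.update_of_ne hp, Function.update_of_ne hq] at hpq
        exact hinj hpq
  · intro p hp
    by_cases hpi : p = i
    · subst hpi
      rw [Function.update_self] at hp
      exact havoid _ hp.symm
    · rw [Function.update_of_ne hpi] at hp
      exact hpi (hinj hp)
  · have h1 : ∑ j, dist (S' j) (Function.update e i g j) + dist g (e i) =
        ∑ j, dist (S' j) (e j) := by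
      rw [← Finset.add_sum_erase _ _ (Finset.mem_univ i),
        ← Finset.add_sum_erase (s := Finset.univ) (f := fun j => dist (S' j) (e j)) (Finset.mem_univ i)]
      rw [Function.update_self, hSi, dist_self, zero_add, add_comm]
      congr 1
      apply Finset.sum_congr rfl
      intro j hj
      rw [Function.update_of_ne (Finset.ne_of_mem_erase hj)]
    linarith

/-- The offline player can be, after `ρ`, in a state in which exactly the point `y` is
uncovered, at cost at most `m`. -/
def OffHole (s₀ : State M k) (ρ : List M) (y : M) (m : ℝ) : Prop :=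
  ∃ (s : State M k) (x : ℝ), Offline s₀ ρ s x ∧ x ≤ m ∧ Function.Injective s.pos ∧
    ∀ i, s.pos i ≠ y

theorem OffHole.opt_le {ρ : List M} {y : M} {m : ℝ} (h : OffHole s₀ ρ y m) : opt s₀ ρ ≤ m := by
  obtain ⟨s, x, hs, hx, -, -⟩ := h
  exact le_trans (CompleteBipartite.opt_le hs) hx

variable [Fintype M]

omit [MetricSpace M] in
theorem surj_of_inj (hcard : Fintype.card M = k + 1) {e : Fin k → M}
    (he : Function.Injective e) {y : M} (hy : ∀ i, e i ≠ y) (r : M) (hr : r ≠ y) :
    ∃ i, e i = r := by
  classical
  by_contra hcon
  push Not at hcon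
  have h1 : (insert r (insert y (Finset.univ.image e))).card ≤ Fintype.card M :=
    Finset.card_le_univ _
  rw [Finset.card_insert_of_notMem, Finset.card_insert_of_notMem,
    Finset.card_image_of_injective _ he, Finset.card_univ, Fintype.card_fin, hcard] at h1
  · omega
  · simp [hy]
  · simp [hr, hcon]

theorem OffHole.stay (hcard : Fintype.card M = k + 1) {ρ : List M} {y : M} {m : ℝ}
    (h : OffHole s₀ ρ y m) (r : M) (hr : r ≠ y) : OffHole s₀ (r :: ρ) y m := by
  obtain ⟨s, x, hs, hx, hinj, hy⟩ := h
  obtain ⟨i, hi⟩ := surj_of_inj hcard hinj hy r hr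
  refine ⟨⟨s.pos, i⟩, x + moveCost s ⟨s.pos, i⟩, Offline.cons ρ s x r _ hs ⟨rfl, hi⟩, ?_, hinj, hy⟩
  have : moveCost s ⟨s.pos, i⟩ = 0 := by simp [moveCost]
  rw [this, add_zero]
  exact hx

theorem OffHole.move (hcard : Fintype.card M = k + 1) {ρ : List M} {y r' : M} {m : ℝ}
    (h : OffHole s₀ (r' :: ρ) y m) (u : M) (hu : u ≠ y) (hur : u ≠ r') :
    OffHole s₀ (y :: r' :: ρ) u (m + dist u y) := by
  classical
  obtain ⟨s, x, hs, hx, hinj, hy⟩ := h
  obtain ⟨i, hi⟩ := surj_of_inj hcard hinj hy u hu
  have hfr : s.pos s.frozen = r' := by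
    cases hs with
    | cons _ _ _ _ _ _ hstep => exact hstep.2
  have hif : s.frozen ≠ i := by
    intro h
    rw [← h, hfr] at hi
    exact hur hi.symm
  refine ⟨⟨Function.update s.pos i y, i⟩, x + moveCost s ⟨Function.update s.pos i y, i⟩,
    Offline.cons _ s x y _ hs ⟨?_, ?_⟩, ?_, ?_, ?_⟩
  · simp [Function.update_of_ne hif]
  · simp
  · have : moveCost s ⟨Function.update s.pos i y, i⟩ = dist u y := by
      rw [moveCost, Finset.sum_eq_single i]
      · simp [hi]
      · intro j _ hj
        simp [Function.update_of_ne hj]
      · simp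
    rw [this]
    linarith
  · intro p q hpq
    simp only at hpq
    by_cases hp : p = i
    · by_cases hq : q = i
      · rw [hp, hq]
      · subst hp
        rw [Function.update_self, Function.update_of_ne hq] at hpq
        exact absurd hpq.symm (hy q)
    · by_cases hq : q = i
      · subst hq
        rw [Function.update_self, Function.update_of_ne hp] at hpq
        exact absurd hpq (hy p)
      · rw [Function.update_of_ne hp, Function.update_of_ne hq] at hpq
        exact hinj hpq
  · intro p hp
    simp only at hp
    by_cases hpi : p = i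
    · subst hpi
      rw [Function.update_self] at hp
      exact hu hp.symm
    · rw [Function.update_of_ne hpi, ← hi] at hp
      exact hpi (hinj hp)

end General

/-! ### The adversary -/

section Adversary

variable {M : Type} [MetricSpace M] [Fintype M] {k : ℕ} {s₀ : State M k}

/-- The metric of a complete bipartite graph with sides given by `side`. -/
structure IsKab (side : M → Bool) : Prop where
  cross : ∀ x y, side x ≠ side y → dist x y = 1
  same : ∀ x y, x ≠ y → side x = side y → dist x y = 2
  two : ∀ b, 2 ≤ (Finset.univ.filter fun x => side x = b).card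

/-- The number of points of a side. -/
def num (side : M → Bool) (b : Bool) : ℕ := (Finset.univ.filter fun x => side x = b).card

/-- A situation during a phase in which the adversary works on side `b`: the points of `U`
still have to be requested, `t` is a lower bound for the distance travelled by the hole in this
phase until it was last removed at `v`. -/
structure Phase (side : M → Bool) (A : Algorithm s₀) (Q : ℝ) (b : Bool) (m base : ℝ) (ρ : List M)
    (U : Finset M) (v g : M) (e : Fin k → M) (L t : ℝ) : Prop where
  inv : Inv A Q ρ g e L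
  sub : ∀ y ∈ U, side y = b
  ne : U.Nonempty
  off : ∀ y ∈ U, OffHole s₀ ρ y m
  bound : base + t + dist v g ≤ L
  shape : (U.card = num side b ∧ side v ≠ b ∧ t = 0) ∨
    (U.card < num side b ∧ side v = b ∧ v ∉ U ∧ t = 2 * ((num side b : ℝ) - U.card) - 1)

/-- The situation at the start of a phase. -/
def Start (side : M → Bool) (A : Algorithm s₀) (Q : ℝ) (b : Bool) (m base : ℝ) : Prop :=
  ∃ (ρ : List M) (v g : M) (e : Fin k → M) (L : ℝ), Inv A Q ρ g e L ∧
    (∀ y, side y = b → OffHole s₀ ρ y m) ∧ side v ≠ b ∧ base + dist v g ≤ L

theorem one_le_dist {side : M → Bool} (hK : IsKab side) {x y : M} (h : x ≠ y) : 1 ≤ dist x y := by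
  by_cases hs : side x = side y
  · rw [hK.same x y h hs]; norm_num
  · rw [hK.cross x y hs]

theorem Phase.finish (hcard : Fintype.card M = k + 1) {side : M → Bool} (hK : IsKab side)
    {A : Algorithm s₀} {Q C K : ℝ} (hA : ∀ ρ : List M, A.cost ρ ≤ C * opt s₀ ρ + K)
    {b : Bool} {m base : ℝ} (n : ℕ) :
    ∀ (ρ : List M) (U : Finset M) (v g : M) (e : Fin k → M) (L t : ℝ),
      Phase side A Q b m base ρ U v g e L t → max C 0 * m + K + Q + 1 - L ≤ n →
      Start side A Q (!b) (m + 1) (base + (2 * num side b - 1)) := by
  classical
  induction n with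
  | zero =>
    intro ρ U v g e L t h hL
    exfalso
    obtain ⟨y, hy⟩ := h.ne
    have h1 := (h.off y hy).opt_le
    have h2 : C * opt s₀ ρ ≤ max C 0 * m := by
      have h3 : 0 ≤ opt s₀ ρ := opt_nonneg
      calc C * opt s₀ ρ ≤ max C 0 * opt s₀ ρ :=
            mul_le_mul_of_nonneg_right (le_max_left _ _) h3
        _ ≤ max C 0 * m := mul_le_mul_of_nonneg_left h1 (le_max_right _ _)
    have h4 := hA ρ
    have h5 := h.inv.bound
    have h6 : 0 ≤ ∑ i, dist ((A.state ρ).pos i) (e i) := Finset.sum_nonneg fun _ _ => dist_nonneg
    simp only [Nat.cast_zero] at hL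
    linarith
  | succ n ih =>
    intro ρ U v g e L t h hL
    by_cases hgU : g ∈ U
    · -- the hole is at a point of `U`
      have hvg : t + dist v g = 2 * ((num side b : ℝ) - (U.erase g).card) - 1 := by
        have hc : ((U.erase g).card : ℝ) = U.card - 1 := by
          rw [Finset.card_erase_of_mem hgU]
          have : 1 ≤ U.card := Finset.card_pos.2 h.ne
          push_cast [this]
          ring
        rcases h.shape with ⟨h1, h2, h3⟩ | ⟨h1, h2, h3, h4⟩
        · rw [hK.cross v g (by rw [h.sub g hgU]; exact h2), h3, hc, h1]
          ring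
        · have hne : v ≠ g := fun h' => h3 (h' ▸ hgU)
          rw [hK.same v g hne (by rw [h2, h.sub g hgU]), h4, hc]
          ring
      by_cases hU : (U.erase g).Nonempty
      · -- request `g`, stay in the phase
        obtain ⟨g', e', hg', hinv⟩ := h.inv.hole
        refine ih (g :: ρ) (U.erase g) g g' e' (L + dist g g')
          (2 * ((num side b : ℝ) - (U.erase g).card) - 1) ⟨hinv, ?_, hU, ?_, ?_, ?_⟩ ?_
        · intro y hy
          exact h.sub y (Finset.mem_of_mem_erase hy)
        · intro y hy
          exact (h.off y (Finset.mem_of_mem_erase hy)).stay hcard g (Finset.ne_of_mem_erase hy).symm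
        · have := h.bound
          linarith
        · right
          refine ⟨?_, h.sub g hgU, Finset.notMem_erase g U, rfl⟩
          have h1 : (U.erase g).card < U.card := Finset.card_erase_lt_of_mem hgU
          have h2 : U.card ≤ num side b := by
            apply Finset.card_le_card
            intro y hy
            simp [h.sub y hy]
          omega
        · have := one_le_dist hK hg'.symm
          push_cast at hL
          linarith
      · -- `U = {g}`: request some other point of the same side and then `g`
        rw [Finset.not_nonempty_iff_eq_empty] at hU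
        obtain ⟨z, hz1, hz2⟩ : ∃ z, side z = b ∧ z ≠ g := by
          have h2 := hK.two b
          obtain ⟨z, hz, hzg⟩ := Finset.exists_mem_ne
            (s := Finset.univ.filter fun x => side x = b) (by omega) g
          exact ⟨z, by simpa using hz, hzg⟩
        have hinv1 := h.inv.other z
        obtain ⟨g', e', hg', hinv2⟩ := hinv1.hole
        refine ⟨g :: z :: ρ, g, g', e', L + dist g g', hinv2, ?_, ?_, ?_⟩
        · intro y hy
          have hyb : side y ≠ b := by rw [hy]; simp
          have hyg : y ≠ g := by rintro rfl; exact hyb (h.sub y hgU)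
          have hyz : y ≠ z := by rintro rfl; exact hyb hz1
          have h1 := ((h.off g hgU).stay hcard z hz2).move hcard y hyg hyz
          rw [hK.cross y g (by rw [h.sub g hgU]; exact hyb)] at h1
          exact h1
        · rw [h.sub g hgU]; simp
        · rw [hU] at hvg
          simp only [Finset.card_empty, Nat.cast_zero, sub_zero] at hvg
          have := h.bound
          linarith
    · -- the hole is not at a point of `U`
      obtain ⟨g', e', hg', hinv⟩ := h.inv.hole
      refine ih (g :: ρ) U v g' e' (L + dist g g') t ⟨hinv, h.sub, h.ne, ?_, ?_, h.shape⟩ ?_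
      · intro y hy
        exact (h.off y hy).stay hcard g (fun h' => hgU (h' ▸ hy))
      · have h1 := h.bound
        have h2 := dist_triangle v g g'
        linarith
      · have := one_le_dist hK hg'.symm
        push_cast at hL
        linarith

theorem Start.next (hcard : Fintype.card M = k + 1) {side : M → Bool} (hK : IsKab side)
    {A : Algorithm s₀} {Q C K : ℝ} (hA : ∀ ρ : List M, A.cost ρ ≤ C * opt s₀ ρ + K)
    {b : Bool} {m base : ℝ} (h : Start side A Q b m base) :
    Start side A Q (!b) (m + 1) (base + (2 * num side b - 1)) := by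
  obtain ⟨ρ, v, g, e, L, hinv, hoff, hv, hb⟩ := h
  obtain ⟨n, hn⟩ := exists_nat_ge (max C 0 * m + K + Q + 1 - L)
  refine Phase.finish hcard hK hA n ρ (Finset.univ.filter fun x => side x = b) v g e L 0
    ⟨hinv, ?_, ?_, ?_, ?_, ?_⟩ hn
  · intro y hy; simpa using hy
  · rw [← Finset.card_pos]
    have := hK.two b
    omega
  · intro y hy; exact hoff y (by simpa using hy)
  · linarith
  · left
    exact ⟨rfl, hv, rfl⟩

omit [MetricSpace M] in
theorem num_add {side : M → Bool} (b : Bool) : num side b + num side (!b) = Fintype.card M := by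
  classical
  rw [num, num, ← Finset.card_univ,
    ← Finset.card_filter_add_card_filter_not (s := Finset.univ) (fun x => side x = b)]
  congr 2
  ext x
  simp only [Finset.mem_filter, Finset.mem_univ, true_and]
  cases b <;> cases side x <;> simp

theorem Start.next2 (hcard : Fintype.card M = k + 1) {side : M → Bool} (hK : IsKab side)
    {A : Algorithm s₀} {Q C K : ℝ} (hA : ∀ ρ : List M, A.cost ρ ≤ C * opt s₀ ρ + K)
    {b : Bool} {m base : ℝ} (h : Start side A Q b m base) :
    Start side A Q b (m + 2) (base + 2 * k) := by
  have h1 := (h.next hcard hK hA).next hcard hK hA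
  have h2 : (num side b : ℝ) + num side (!b) = k + 1 := by
    have := num_add (side := side) b
    rw [hcard] at this
    exact_mod_cast this
  rw [Bool.not_not] at h1
  have e1 : m + 1 + 1 = m + 2 := by ring
  have e2 : base + (2 * (num side b : ℝ) - 1) + (2 * (num side (!b) : ℝ) - 1) = base + 2 * k := by
    linarith
  rwa [e1, e2] at h1

theorem Start.iterate (hcard : Fintype.card M = k + 1) {side : M → Bool} (hK : IsKab side)
    {A : Algorithm s₀} {Q C K : ℝ} (hA : ∀ ρ : List M, A.cost ρ ≤ C * opt s₀ ρ + K)
    {b : Bool} {m base : ℝ} (h : Start side A Q b m base) (j : ℕ) :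
    Start side A Q b (m + 2 * j) (base + 2 * k * j) := by
  induction j with
  | zero => simpa using h
  | succ j ih =>
    have h1 := ih.next2 hcard hK hA
    have e1 : m + 2 * (j : ℝ) + 2 = m + 2 * ((j + 1 : ℕ) : ℝ) := by push_cast; ring
    have e2 : base + 2 * k * (j : ℝ) + 2 * k = base + 2 * k * ((j + 1 : ℕ) : ℝ) := by
      push_cast; ring
    rwa [e1, e2] at h1

omit [MetricSpace M] in
/-- An injective configuration missing `y` with a prescribed position of one server. -/
theorem exists_config (hcard : Fintype.card M = k + 1) (y q : M) (hq : q ≠ y) (f : Fin k) :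
    ∃ e : Fin k → M, Function.Injective e ∧ (∀ i, e i ≠ y) ∧ e f = q := by
  classical
  have hc : Fintype.card (Fin k) = Fintype.card {x : M // x ≠ y} := by
    rw [Fintype.card_fin, Fintype.card_subtype_compl, hcard, Fintype.card_subtype_eq]
    omega
  let e₀ : Fin k ≃ {x : M // x ≠ y} := Fintype.equivOfCardEq hc
  let e₁ : Fin k ≃ {x : M // x ≠ y} := e₀.trans (Equiv.swap (e₀ f) ⟨q, hq⟩)
  refine ⟨fun i => (e₁ i : M), ?_, fun i => (e₁ i).2, ?_⟩
  · intro i j hij
    exact e₁.injective (Subtype.ext hij)
  · simp [e₁]

theorem exists_start (hcard : Fintype.card M = k + 1) {side : M → Bool} (hK : IsKab side)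
    (A : Algorithm s₀) : ∃ (b : Bool) (Q m base : ℝ), Start side A Q b m base := by
  classical
  set q := s₀.pos s₀.frozen with hq
  have hM : Nonempty M := ⟨q⟩
  have hne : ∃ g : M, g ≠ q := by
    have h2 := hK.two (!side q)
    obtain ⟨z, -, hz⟩ := Finset.exists_mem_ne
      (s := Finset.univ.filter fun x => side x = !side q) (by omega) q
    exact ⟨z, hz⟩
  obtain ⟨g, hg⟩ := hne
  obtain ⟨e, he1, he2, -⟩ := exists_config hcard g q hg.symm s₀.frozen
  -- a bound for all costs of the first move
  have hd : ∀ x y : M, dist x y ≤ 2 := by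
    intro x y
    by_cases h : x = y
    · rw [h, dist_self]; norm_num
    · by_cases hs : side x = side y
      · rw [hK.same x y h hs]
      · rw [hK.cross x y hs]; norm_num
  refine ⟨!side q, (∑ i, dist ((A.state [q]).pos i) (e i)), 2 * k, - dist q g,
    [q], q, g, e, 0, ⟨he1, he2, ?_⟩, ?_, by simp, by simp⟩
  · have h1 : A.cost [q] = 0 + moveCost (A.state []) (A.state [q]) := rfl
    rw [h1]
    have := moveCost_nonneg (A.state []) (A.state [q])
    linarith
  · intro y hy
    have hqy : q ≠ y := by rintro h; rw [h] at hy; simp at hy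
    obtain ⟨c, hc1, hc2, hc3⟩ := exists_config hcard y q hqy s₀.frozen
    refine ⟨⟨c, s₀.frozen⟩, 0 + moveCost s₀ ⟨c, s₀.frozen⟩,
      Offline.cons [] s₀ 0 q _ Offline.nil ⟨hc3, hc3⟩, ?_, hc1, hc2⟩
    rw [zero_add]
    calc moveCost s₀ ⟨c, s₀.frozen⟩ ≤ ∑ _i : Fin k, (2 : ℝ) :=
          Finset.sum_le_sum fun i _ => hd _ _
      _ = 2 * k := by simp [mul_comm]

theorem le_of_competitive (hcard : Fintype.card M = k + 1) {side : M → Bool} (hK : IsKab side)
    (A : Algorithm s₀) {C : ℝ} (hA : A.IsCompetitive C) : (k : ℝ) ≤ C := by
  obtain ⟨K, hA⟩ := hA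
  obtain ⟨b, Q, m, base, hstart⟩ := exists_start hcard hK A
  by_contra hcon
  push Not at hcon
  have hC : max C 0 < k := by
    apply max_lt hcon
    have : 0 < k := by
      rcases Nat.eq_zero_or_pos k with h | h
      · subst h
        exact s₀.frozen.elim0
      · exact h
    exact_mod_cast this
  -- the costs after `2 j` phases
  have key : ∀ j : ℕ, base + 2 * k * j ≤ max C 0 * (m + 2 * j) + K + Q := by
    intro j
    obtain ⟨ρ, v, g, e, L, hinv, hoff, hv, hb⟩ := hstart.iterate hcard hK hA j
    obtain ⟨y, hy⟩ : ∃ y, side y = b := by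
      have h2 := hK.two b
      obtain ⟨z, hz⟩ := Finset.card_pos.1 (show 0 < (Finset.univ.filter fun x => side x = b).card
        by omega)
      exact ⟨z, by simpa using hz⟩
    have h1 := (hoff y hy).opt_le
    have h2 : C * opt s₀ ρ ≤ max C 0 * (m + 2 * j) := by
      have h3 : 0 ≤ opt s₀ ρ := opt_nonneg
      calc C * opt s₀ ρ ≤ max C 0 * opt s₀ ρ :=
            mul_le_mul_of_nonneg_right (le_max_left _ _) h3
        _ ≤ max C 0 * (m + 2 * j) := mul_le_mul_of_nonneg_left h1 (le_max_right _ _)
    have h4 := hA ρ
    have h5 := hinv.bound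
    have h6 : 0 ≤ ∑ i, dist ((A.state ρ).pos i) (e i) := Finset.sum_nonneg fun _ _ => dist_nonneg
    have h7 : 0 ≤ dist v g := dist_nonneg
    linarith
  obtain ⟨j, hj⟩ := exists_nat_gt ((max C 0 * m + K + Q - base) / (2 * (k - max C 0)))
  have hpos : 0 < 2 * ((k : ℝ) - max C 0) := by linarith
  rw [div_lt_iff₀ hpos] at hj
  have := key j
  nlinarith

end Adversary

/-! ### The concrete metric space -/

/-- The points of the complete bipartite graph `K_{a,b}`. -/
structure Pt (a b : ℕ) where
  val : Fin a ⊕ Fin b
deriving DecidableEq

namespace Pt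

variable {a b : ℕ}

/-- The equivalence with the disjoint sum. -/
def equiv (a b : ℕ) : Pt a b ≃ Fin a ⊕ Fin b where
  toFun := val
  invFun := mk
  left_inv _ := rfl
  right_inv _ := rfl

instance : Fintype (Pt a b) := Fintype.ofEquiv _ (equiv a b).symm

/-- The side of a point. -/
def side (x : Pt a b) : Bool := x.val.isLeft

/-- The path metric of `K_{a,b}`: distance `1` across, distance `2` on the same side. -/
noncomputable instance : MetricSpace (Pt a b) where
  dist x y := if x = y then 0 else if side x = side y then 2 else 1
  dist_self x := by simp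
  dist_comm x y := by simp only [eq_comm]
  dist_triangle x y z := by
    by_cases h1 : x = y
    · subst h1; simp
    · by_cases h2 : y = z
      · subst h2; simp
      · rw [if_neg h1, if_neg h2]
        split_ifs <;> norm_num
  eq_of_dist_eq_zero := by
    intro x y h
    by_contra hne
    rw [if_neg hne] at h
    split_ifs at h <;> norm_num at h

theorem dist_def (x y : Pt a b) :
    dist x y = if x = y then 0 else if side x = side y then 2 else 1 := rfl

theorem card (a b : ℕ) : Fintype.card (Pt a b) = a + b := by
  rw [Fintype.card_congr (equiv a b)]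
  simp

theorem isKab (ha : 2 ≤ a) (hb : 2 ≤ b) : IsKab (side : Pt a b → Bool) where
  cross x y h := by
    have hne : x ≠ y := fun h' => h (congrArg side h')
    rw [dist_def, if_neg hne, if_neg h]
  same x y hne h := by rw [dist_def, if_neg hne, if_pos h]
  two := by
    intro c
    cases c with
    | true =>
      have h1 : (Finset.univ.image fun i : Fin a => (⟨Sum.inl i⟩ : Pt a b)).card = a := by
        rw [Finset.card_image_of_injective, Finset.card_univ, Fintype.card_fin]
        intro i j h
        simpa using h
      rw [← h1] at ha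
      refine le_trans ha (Finset.card_le_card ?_)
      intro x hx
      obtain ⟨i, -, rfl⟩ := Finset.mem_image.1 hx
      exact Finset.mem_filter.2 ⟨Finset.mem_univ _, rfl⟩
    | false =>
      have h1 : (Finset.univ.image fun i : Fin b => (⟨Sum.inr i⟩ : Pt a b)).card = b := by
        rw [Finset.card_image_of_injective, Finset.card_univ, Fintype.card_fin]
        intro i j h
        simpa using h
      rw [← h1] at hb
      refine le_trans hb (Finset.card_le_card ?_)
      intro x hx
      obtain ⟨i, -, rfl⟩ := Finset.mem_image.1 hx
      exact Finset.mem_filter.2 ⟨Finset.mem_univ _, rfl⟩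

end Pt

/-- For every `k ≥ 3` (in particular for every `k ≥ 4`) there is a metric space with `k + 1`
points on which, for every initial state, the competitiveness of the delayed `k`-server
problem is at least `k`. -/
theorem result : ∀ k : ℕ, 3 ≤ k → ∃ (M : Type) (_ : MetricSpace M), Nat.card M = k + 1 ∧
    ∀ s₀ : State M k, (k : EReal) ≤ competitiveness s₀ := by
  intro k hk
  refine ⟨Pt 2 (k - 1), inferInstance, ?_, ?_⟩
  · rw [Nat.card_eq_fintype_card, Pt.card]; omega
  · intro s₀
    apply le_sInf
    rintro _ ⟨C, rfl, A, hA⟩
    have h := le_of_competitive (by rw [Pt.card]; omega) (Pt.isKab (le_refl 2) (by omega)) A hA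
    exact_mod_cast h

end Pool.Agent.Results.MP_f4335c_lc.CompleteBipartite
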